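import Mathlib

/-!
# MP_5698f2_an: definitions

The Schroedinger operator `P = -(1/2) div (A grad)` on `R^n`, its propagator, the wave front
relation of the Schwartz kernel of an operator, and the bicharacteristics of `P`.
-/

open MeasureTheory Filter Topology
open scoped ContDiff InnerProductSpace

namespace Pool.Agent.Work.MP_5698f2_an

/-- Euclidean space `R^n`. -/
abbrev Sp (n : ℕ) : Type := EuclideanSpace ℝ (Fin n)

/-- The Hilbert space `L^2(R^n; C)`. -/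
abbrev L2 (n : ℕ) : Type := Lp ℂ 2 (volume : Measure (Sp n))

/-- The standard basis vector `e_j`. -/
noncomputable def ev {n : ℕ} (j : Fin n) : Sp n := EuclideanSpace.single j (1 : ℝ)

/-- The quadratic form `<A(x) xi, xi>`. -/
noncomputable def quad {n : ℕ} (A : Sp n → Matrix (Fin n) (Fin n) ℝ) (x ξ : Sp n) : ℝ :=
  ∑ j, ∑ l, A x j l * ξ j * ξ l

/-- The class of coefficient matrices of the problem. -/
structure Admissible {n : ℕ} (A : Sp n → Matrix (Fin n) (Fin n) ℝ) : Prop where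
  smooth : ∀ j l, ContDiff ℝ ∞ (fun x => A x j l)
  symm : ∀ x j l, A x j l = A x l j
  elliptic : ∃ c : ℝ, 0 < c ∧ ∀ x ξ, c * ‖ξ‖ ^ 2 ≤ quad A x ξ
  decay : ∃ ε : ℝ, 0 < ε ∧ ∀ m : ℕ, ∃ C : ℝ, ∀ j l x,
    ‖iteratedFDeriv ℝ m (fun z => A z j l - (1 : Matrix (Fin n) (Fin n) ℝ) j l) x‖
      ≤ C * (1 + ‖x‖) ^ (-(1 + ε + (m : ℝ)))

/-- `P u = -(1/2) sum_j d_j (sum_l a^{jl} d_l u)`. -/
noncomputable def schrOp {n : ℕ} (A : Sp n → Matrix (Fin n) (Fin n) ℝ) (u : Sp n → ℂ)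
    (x : Sp n) : ℂ :=
  -(1 / 2) * ∑ j, fderiv ℝ (fun z => ∑ l, (A z j l : ℂ) * fderiv ℝ u z (ev l)) x (ev j)

open Classical in
/-- The class in `L^2` of a square integrable function (and `0` otherwise). -/
noncomputable def toL2 {n : ℕ} (u : Sp n → ℂ) : L2 n :=
  if h : MemLp u 2 (volume : Measure (Sp n)) then h.toLp u else 0

/-- Test functions: smooth with compact support. -/
def IsTest {n : ℕ} (u : Sp n → ℂ) : Prop := ContDiff ℝ ∞ u ∧ HasCompactSupport u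

/-- `S` is the Schroedinger propagator of `i d_t psi = P psi`: a strongly continuous group of
isometries of `L^2(R^n)` with `d/dt S(t) u = -i S(t) P u` for every test function `u`. -/
structure IsSchrodingerGroup {n : ℕ} (A : Sp n → Matrix (Fin n) (Fin n) ℝ)
    (S : ℝ → (L2 n →L[ℂ] L2 n)) : Prop where
  zero : S 0 = ContinuousLinearMap.id ℂ (L2 n)
  add : ∀ s t, S (s + t) = (S s).comp (S t)
  norm : ∀ t f, ‖S t f‖ = ‖f‖
  cont : ∀ f, Continuous fun t => S t f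
  deriv : ∀ u : Sp n → ℂ, IsTest u → ∀ t,
    HasDerivAt (fun s => S s (toL2 u)) (-(Complex.I • S t (toL2 (schrOp A u)))) t

/-- The plane wave `x ↦ exp (i <xi, x>)`. -/
noncomputable def wave {n : ℕ} (ξ x : Sp n) : ℂ := Complex.exp (Complex.I * (⟪ξ, x⟫_ℝ : ℝ))

/-- For the Schwartz kernel `K(x,y)` of `T`: the Fourier transform of `phi(x) psi(y) K(x,y)` at
`(xi, -eta)`, that is `∫ phi(x) exp(-i<xi,x>) (T (psi exp(i<eta,.>)))(x) dx`. -/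
noncomputable def kernelFourier {n : ℕ} (T : L2 n →L[ℂ] L2 n) (φ ψ : Sp n → ℂ)
    (ξ η : Sp n) : ℂ :=
  ∫ x, φ x * wave (-ξ) x * (T (toL2 fun y => ψ y * wave η y) : Sp n → ℂ) x

/-- The Schwartz kernel of `T` is microlocally smooth at `(x₀, ξ₀; y₀, -η₀)`. -/
def MicroSmooth {n : ℕ} (T : L2 n →L[ℂ] L2 n) (x₀ ξ₀ y₀ η₀ : Sp n) : Prop :=
  ∃ φ ψ : Sp n → ℂ, IsTest φ ∧ IsTest ψ ∧ φ x₀ ≠ 0 ∧ ψ y₀ ≠ 0 ∧
    ∃ Γ : Set (Sp n × Sp n), IsOpen Γ ∧ (ξ₀, η₀) ∈ Γ ∧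
      (∀ p ∈ Γ, ∀ r : ℝ, 0 < r → r • p ∈ Γ) ∧
      ∀ N : ℕ, ∃ C : ℝ, ∀ p ∈ Γ,
        ‖kernelFourier T φ ψ p.1 p.2‖ ≤ C * (1 + ‖p.1‖ + ‖p.2‖) ^ (-(N : ℝ))

/-- The wave front relation: `((x,ξ),(y,η))` with `(x,y;ξ,-η)` in the wave front set of the
Schwartz kernel of `T`. -/
def wfRelation {n : ℕ} (T : L2 n →L[ℂ] L2 n) : Set ((Sp n × Sp n) × (Sp n × Sp n)) :=
  {q | (q.1.2, q.2.2) ≠ 0 ∧ ¬ MicroSmooth T q.1.1 q.1.2 q.2.1 q.2.2}

/-- A bicharacteristic of `a(x,ξ) = (1/2) <A(x) ξ, ξ>`: a solution of Hamilton's equations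
`x' = d_ξ a`, `ξ' = - d_x a`. -/
def IsBichar {n : ℕ} (A : Sp n → Matrix (Fin n) (Fin n) ℝ) (x ξ : ℝ → Sp n) : Prop :=
  ∀ t, HasDerivAt x (gradient (fun ζ => (1 / 2) * quad A (x t) ζ) (ξ t)) t ∧
    HasDerivAt ξ (-gradient (fun z => (1 / 2) * quad A z (ξ t)) (x t)) t

/-- A conic subset of the cotangent bundle. -/
def IsConic {n : ℕ} (U : Set (Sp n × Sp n)) : Prop :=
  ∀ p ∈ U, ∀ r : ℝ, 0 < r → (p.1, r • p.2) ∈ U

end Pool.Agent.Work.MP_5698f2_an
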