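import Mathlib

/-!
# MP_5698f2_an: definitions for the statement

Everything is defined on a real inner product space `E` with vectors `e j` (in the theorem:
`E = R^2` with Lebesgue measure and `e` the standard basis).
-/

open MeasureTheory
open scoped ContDiff InnerProductSpace

namespace Pool.Agent.Work.MP_5698f2_an.St

/-- The Hilbert space `L^2(E; C)`. -/
abbrev L2 (E : Type) [MeasureSpace E] : Type := Lp ℂ 2 (volume : Measure E)

open Classical in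
/-- The class in `L^2` of a square integrable function (and `0` otherwise). -/
noncomputable def toL2 {E : Type} [MeasureSpace E] (u : E → ℂ) : L2 E :=
  if h : MemLp u 2 (volume : Measure E) then h.toLp u else 0

/-- A strongly continuous one parameter group of linear isometries of `L^2`. -/
structure IsIsometryGroup {E : Type} [MeasureSpace E] (S : ℝ → L2 E → L2 E) : Prop where
  linear : ∀ t, IsLinearMap ℂ (S t)
  zero : ∀ f, S 0 f = f
  add : ∀ s t f, S (s + t) f = S s (S t f)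
  norm : ∀ t f, ‖S t f‖ = ‖f‖
  cont : ∀ f, Continuous fun t => S t f

variable {n : ℕ} {E : Type} [NormedAddCommGroup E] [InnerProductSpace ℝ E]

/-- The quadratic form `<A(x) xi, xi> = sum a^{jl}(x) xi_j xi_l`, with `xi_j = <e_j, xi>`. -/
noncomputable def quad (e : Fin n → E) (A : E → Matrix (Fin n) (Fin n) ℝ) (x ξ : E) : ℝ :=
  ∑ j, ∑ l, A x j l * ⟪e j, ξ⟫_ℝ * ⟪e l, ξ⟫_ℝ

/-- The class of coefficient matrices of the problem. -/
structure Admissible (e : Fin n → E) (A : E → Matrix (Fin n) (Fin n) ℝ) : Prop where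
  smooth : ∀ j l, ContDiff ℝ ∞ (fun x => A x j l)
  symm : ∀ x j l, A x j l = A x l j
  elliptic : ∃ c : ℝ, 0 < c ∧ ∀ x ξ, c * ‖ξ‖ ^ 2 ≤ quad e A x ξ
  decay : ∃ ε : ℝ, 0 < ε ∧ ∀ m : ℕ, ∃ C : ℝ, ∀ j l x,
    ‖iteratedFDeriv ℝ m (fun z => A z j l - if j = l then 1 else 0) x‖
      ≤ C * (1 + ‖x‖) ^ (-(1 + ε + (m : ℝ)))

/-- `P u = -(1/2) sum_j d_j (sum_l a^{jl} d_l u)`, `d_j` the derivative along `e_j`. -/
noncomputable def schrOp (e : Fin n → E) (A : E → Matrix (Fin n) (Fin n) ℝ) (u : E → ℂ)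
    (x : E) : ℂ :=
  -(1 / 2) * ∑ j, fderiv ℝ (fun z => ∑ l, (A z j l : ℂ) * fderiv ℝ u z (e l)) x (e j)

/-- Test functions: smooth with compact support. -/
def IsTest (u : E → ℂ) : Prop := ContDiff ℝ ∞ u ∧ HasCompactSupport u

/-- The plane wave `x ↦ exp (i <xi, x>)`. -/
noncomputable def wave (ξ x : E) : ℂ := Complex.exp (Complex.I * (⟪ξ, x⟫_ℝ : ℝ))

/-- A bicharacteristic of `a(x,ξ) = (1/2) <A(x) ξ, ξ>`: a solution of Hamilton's equations
`x' = grad_ξ a`, `ξ' = - grad_x a`. -/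
def IsBichar [CompleteSpace E] (e : Fin n → E) (A : E → Matrix (Fin n) (Fin n) ℝ)
    (x ξ : ℝ → E) : Prop :=
  ∀ t, HasDerivAt x (gradient (fun ζ => (1 / 2) * quad e A (x t) ζ) (ξ t)) t ∧
    HasDerivAt ξ (-gradient (fun z => (1 / 2) * quad e A z (ξ t)) (x t)) t

/-- A conic subset of the cotangent bundle. -/
def IsConic (U : Set (E × E)) : Prop := ∀ p ∈ U, ∀ r : ℝ, 0 < r → (p.1, r • p.2) ∈ U

variable [MeasureSpace E]

/-- `S` is the propagator of `i d_t psi = P psi`: a strongly continuous group of linear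
isometries of `L^2` with `d/dt S(t) u = -i S(t) P u` for every test function `u`. -/
def IsPropagator (e : Fin n → E) (A : E → Matrix (Fin n) (Fin n) ℝ)
    (S : ℝ → L2 E → L2 E) : Prop :=
  IsIsometryGroup S ∧ ∀ u : E → ℂ, IsTest u → ∀ t : ℝ,
    HasDerivAt (fun s => S s (toL2 u)) (-(Complex.I • S t (toL2 (schrOp e A u)))) t

/-- For the Schwartz kernel `K(x,y)` of `T`: the Fourier transform of `phi(x) psi(y) K(x,y)` at
`(xi, -eta)`, that is `∫ phi(x) exp(-i<xi,x>) (T (psi exp(i<eta,.>)))(x) dx`. -/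
noncomputable def kernelFourier (T : L2 E → L2 E) (φ ψ : E → ℂ) (ξ η : E) : ℂ :=
  ∫ x, φ x * wave (-ξ) x * T (toL2 fun y => ψ y * wave η y) x

/-- The Schwartz kernel of `T` is microlocally smooth at `(x₀, ξ₀; y₀, -η₀)`. -/
def MicroSmooth (T : L2 E → L2 E) (x₀ ξ₀ y₀ η₀ : E) : Prop :=
  ∃ φ ψ : E → ℂ, IsTest φ ∧ IsTest ψ ∧ φ x₀ ≠ 0 ∧ ψ y₀ ≠ 0 ∧
    ∃ Γ : Set (E × E), IsOpen Γ ∧ (ξ₀, η₀) ∈ Γ ∧
      (∀ ξ η, (ξ, η) ∈ Γ → ∀ r : ℝ, 0 < r → (r • ξ, r • η) ∈ Γ) ∧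
      ∀ N : ℕ, ∃ C : ℝ, ∀ ξ η, (ξ, η) ∈ Γ →
        ‖kernelFourier T φ ψ ξ η‖ ≤ C * (1 + ‖ξ‖ + ‖η‖) ^ (-(N : ℝ))

/-- The wave front relation: `((x,ξ),(y,η))` with `(x,y;ξ,-η)` in the wave front set of the
Schwartz kernel of `T`. -/
def wfRelation (T : L2 E → L2 E) : Set ((E × E) × (E × E)) :=
  {q | (q.1.2 ≠ 0 ∨ q.2.2 ≠ 0) ∧ ¬ MicroSmooth T q.1.1 q.1.2 q.2.1 q.2.2}

/-- The negated form of the question (with `s_* = 0`): for some `t > 0` and some `(ρ, σ)` in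
the wave front relation of `S(t)` there are conic neighbourhoods `V` of `ρ` and `U` of `σ` such
that `φ_s(U)` does not meet `V` for `s ≥ 0`. -/
def FailsFor [CompleteSpace E] (e : Fin n → E) (A : E → Matrix (Fin n) (Fin n) ℝ)
    (S : ℝ → L2 E → L2 E) : Prop :=
  ∃ t : ℝ, 0 < t ∧ ∃ ρ σ : E × E, ρ.2 ≠ 0 ∧ σ.2 ≠ 0 ∧ (ρ, σ) ∈ wfRelation (S t) ∧
    ∃ U V : Set (E × E), IsOpen U ∧ IsOpen V ∧ IsConic U ∧ IsConic V ∧ σ ∈ U ∧ ρ ∈ V ∧
      ∀ x ξ : ℝ → E, IsBichar e A x ξ → (x 0, ξ 0) ∈ U → ∀ s : ℝ, 0 ≤ s → (x s, ξ s) ∉ V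

/-- `A` is in the class, a propagator exists, and the negated form of the question holds for
every propagator. -/
def IsCounterexample [CompleteSpace E] (e : Fin n → E) (A : E → Matrix (Fin n) (Fin n) ℝ) :
    Prop :=
  Admissible e A ∧ (∃ S, IsPropagator e A S) ∧ ∀ S, IsPropagator e A S → FailsFor e A S

/-- The standard basis of `R^n`. -/
noncomputable def stdVec (n : ℕ) (j : Fin n) : EuclideanSpace ℝ (Fin n) :=
  EuclideanSpace.single j 1

end Pool.Agent.Work.MP_5698f2_an.St
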