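import Pool.Agent.Work.MP_5698f2_an.Main
import Pool.Agent.Work.MP_5698f2_an.Bd.B01
import Pool.Agent.Work.MP_5698f2_an.Statement

/-!
# MP_5698f2_an: the counterexample in terms of the definitions of the statement
-/

open MeasureTheory Filter Topology Set
open scoped ContDiff InnerProductSpace

namespace Pool.Agent.Work.MP_5698f2_an

lemma St_quad (A : Sp 2 → Matrix (Fin 2) (Fin 2) ℝ) (x ξ : Sp 2) :
    St.quad (St.stdVec 2) A x ξ = quad A x ξ := by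
  unfold St.quad quad St.stdVec
  refine Finset.sum_congr rfl fun j _ => Finset.sum_congr rfl fun l _ => ?_
  rw [EuclideanSpace.inner_single_left, EuclideanSpace.inner_single_left]
  simp

lemma St_admissible : St.Admissible (St.stdVec 2) Amat := by
  obtain ⟨h1, h2, ⟨c, hc, h3⟩, ⟨ε, hε, h4⟩⟩ := admissible_Amat
  refine ⟨h1, h2, ⟨c, hc, fun x ξ => ?_⟩, ⟨ε, hε, fun m => ?_⟩⟩
  · rw [St_quad]; exact h3 x ξ
  · obtain ⟨C, hC⟩ := h4 m
    exact ⟨C, fun j l x => hC j l x⟩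

/-- A propagator in the sense of the statement as a group of bounded operators. -/
lemma St_group {S : ℝ → St.L2 (Sp 2) → St.L2 (Sp 2)}
    (h : St.IsPropagator (St.stdVec 2) Amat S) :
    ∃ S' : ℝ → (L2 2 →L[ℂ] L2 2), IsSchrodingerGroup Amat S' ∧ ∀ t f, S' t f = S t f := by
  obtain ⟨⟨hl, h0, ha, hn, hc⟩, hd⟩ := h
  let S' : ℝ → (L2 2 →L[ℂ] L2 2) := fun t =>
    LinearMap.mkContinuous (IsLinearMap.mk' (S t) (hl t)) 1 (fun f => by
      rw [one_mul]; exact (hn t f).le)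
  have hS' : ∀ t f, S' t f = S t f := fun t f => rfl
  refine ⟨S', ⟨?_, ?_, fun t f => ?_, fun f => ?_, fun u hu t => ?_⟩, hS'⟩
  · ext1 f; exact h0 f
  · intro s t; ext1 f; exact ha s t f
  · rw [hS']; exact hn t f
  · simp only [hS']; exact hc f
  · exact hd u hu t

lemma St_exists : ∃ S, St.IsPropagator (St.stdVec 2) Amat S := by
  obtain ⟨S, h1, h2, h3, h4, h5⟩ := exists_group admissible_Amat
  refine ⟨fun t f => S t f, ⟨fun t => (S t).toLinearMap.isLinear, fun f => ?_, fun s t f => ?_,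
    h3, h4⟩, h5⟩
  · rw [h1]; rfl
  · rw [h2]; rfl

lemma St_micro {T : L2 2 →L[ℂ] L2 2} {T' : St.L2 (Sp 2) → St.L2 (Sp 2)}
    (hT : ∀ f, T f = T' f) {x₀ ξ₀ y₀ η₀ : Sp 2} (h : St.MicroSmooth T' x₀ ξ₀ y₀ η₀) :
    MicroSmooth T x₀ ξ₀ y₀ η₀ := by
  obtain ⟨φ, ψ, h1, h2, h3, h4, Γ, h5, h6, h7, h8⟩ := h
  refine ⟨φ, ψ, h1, h2, h3, h4, Γ, h5, h6, fun p hp r hr => h7 p.1 p.2 hp r hr, fun N => ?_⟩
  obtain ⟨C, hC⟩ := h8 N
  refine ⟨C, fun p hp => ?_⟩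
  have := hC p.1 p.2 hp
  have e : kernelFourier T φ ψ p.1 p.2 = St.kernelFourier T' φ ψ p.1 p.2 := by
    unfold kernelFourier St.kernelFourier
    rw [hT]; rfl
  rw [e]; exact this

lemma St_bichar {x ξ : ℝ → Sp 2} (h : St.IsBichar (St.stdVec 2) Amat x ξ) :
    IsBichar Amat x ξ := by
  intro t
  have := h t
  simp only [St_quad] at this
  exact this

lemma dirv_props (τ : ℝ) {x : Sp 2} (hx : x ≠ 0) :
    dirv τ x ≠ 0 ∧ ⟪x, dirv τ x⟫_ℝ = τ * ‖x‖ ^ 2 := by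
  have hx0 : 0 < ‖x‖ ^ 2 := by positivity
  have h1 : ⟪x, perp x⟫_ℝ = 0 := by
    rw [real_inner_comm, perp_inner]; ring
  have h2 : ⟪x, dirv τ x⟫_ℝ = τ * ‖x‖ ^ 2 := by
    unfold dirv
    rw [inner_add_right, inner_smul_right, inner_smul_right, h1, real_inner_self_eq_norm_sq]
    ring
  refine ⟨fun h => ?_, h2⟩
  have h3 : ⟪perp x, dirv τ x⟫_ℝ = 1 := by
    unfold dirv
    rw [inner_add_right, inner_smul_right, inner_smul_right, real_inner_comm x (perp x), h1,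
      perp_inner]
    have : -x 1 * perp x 0 + x 0 * perp x 1 = ‖x‖ ^ 2 := by
      rw [perp_zero', perp_one', norm_sq_two]; ring
    rw [this]
    field_simp
    ring
  rw [h, inner_zero_right] at h3
  exact zero_ne_one h3

theorem St_fails (S : ℝ → St.L2 (Sp 2) → St.L2 (Sp 2))
    (h : St.IsPropagator (St.stdVec 2) Amat S) : St.FailsFor (St.stdVec 2) Amat S := by
  obtain ⟨S', hS, hSS⟩ := St_group h
  obtain ⟨t, ht, x₀, hx₀, σ, hσ, hnot⟩ := exists_not_micro hS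
  have hx₀ne : x₀ ≠ 0 := by
    intro h
    rw [h, norm_zero, sA_val] at hx₀
    have := hx₀.1
    norm_num at this
  refine ⟨t, by linarith, (x₀, dirv σ x₀), (yP, dirv 1 yP), (dirv_props σ hx₀ne).1,
    (dirv_props 1 yP_ne).1, ⟨Or.inl (dirv_props σ hx₀ne).1, fun h => hnot (St_micro (hSS t) h)⟩,
    {q | sA + 1 < ‖q.1‖ ^ 2 / 2 ∧ ‖q.1‖ ^ 2 / 2 < sA + 2 ∧ 0 < ⟪q.1, q.2⟫_ℝ},
    {q | ‖q.1‖ ^ 2 / 2 < sA}, ?_, ?_, ?_, ?_, ?_, ?_, ?_⟩
  · have c1 : Continuous fun q : Sp 2 × Sp 2 => ‖q.1‖ ^ 2 / 2 := by fun_prop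
    have c2 : Continuous fun q : Sp 2 × Sp 2 => ⟪q.1, q.2⟫_ℝ := by fun_prop
    exact (isOpen_lt continuous_const c1).inter ((isOpen_lt c1 continuous_const).inter
      (isOpen_lt continuous_const c2))
  · have c1 : Continuous fun q : Sp 2 × Sp 2 => ‖q.1‖ ^ 2 / 2 := by fun_prop
    exact isOpen_lt c1 continuous_const
  · rintro q ⟨h1, h2, h3⟩ r hr
    refine ⟨h1, h2, ?_⟩
    rw [inner_smul_right]
    positivity
  · intro q hq r _
    exact hq
  · have h := norm_yP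
    refine ⟨?_, ?_, ?_⟩
    · show sA + 1 < ‖yP‖ ^ 2 / 2
      rw [h]; linarith
    · show ‖yP‖ ^ 2 / 2 < sA + 2
      rw [h]; linarith
    · show 0 < ⟪yP, dirv 1 yP⟫_ℝ
      rw [(dirv_props 1 yP_ne).2, h, sA_val]; norm_num
  · show ‖x₀‖ ^ 2 / 2 < sA
    linarith [hx₀.2]
  · intro x ξ hbi hU s hs hV
    have := no_return (St_bichar hbi) hU.1.le hU.2.1.le hU.2.2 s hs
    have hV' : ‖x s‖ ^ 2 / 2 < sA := hV
    linarith

end Pool.Agent.Work.MP_5698f2_an
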