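import Pool.Agent.Work.MP_5698f2_an.Bd.B03
import Pool.Agent.Work.MP_5698f2_an.Bd.B01
import Pool.Agent.Work.MP_5698f2_an.Bd.B02

/-!
# MP_5698f2_an: main argument
-/

open MeasureTheory Filter Topology Set
open scoped ContDiff InnerProductSpace

namespace Pool.Agent.Work.MP_5698f2_an

lemma IsSchrodingerGroup.iso {n : ℕ} {A : Sp n → Matrix (Fin n) (Fin n) ℝ}
    {S : ℝ → (L2 n →L[ℂ] L2 n)} (h : IsSchrodingerGroup A S) : IsoGroup S :=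
  ⟨h.zero, h.add, h.norm⟩

/-- Properties of the radial frequency. -/
lemma kappa_props : ∃ K : ℝ, ∀ k : ℝ, K ≤ k → ∀ p : ℝ, 0 ≤ p → p ≤ Real.log k / 80 →
    ∀ lam : ℝ, lam = k ^ 2 - k * p →
      √(2 * lam - k ^ 2) ^ 2 = 2 * lam - k ^ 2 ∧ |√(2 * lam - k ^ 2) - k| ≤ √k ∧
        √(2 * lam - k ^ 2) ≤ k ∧ 1 ≤ √(2 * lam - k ^ 2) := by
  refine ⟨16, fun k hk p hp0 hp lam hlam => ?_⟩
  have hk0 : 0 < k := by linarith
  have hsk : 0 < √k := Real.sqrt_pos.2 hk0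
  have hsq : √k ^ 2 = k := Real.sq_sqrt hk0.le
  have hlog : Real.log k ≤ 2 * √k := by
    have h1 : Real.log (√k) ≤ √k - 1 := Real.log_le_sub_one_of_pos hsk
    rw [Real.log_sqrt hk0.le] at h1
    linarith
  have hs4 : 4 ≤ √k := by
    apply Real.le_sqrt_of_sq_le; linarith
  have hlogk : Real.log k ≤ k := by nlinarith
  have e : 2 * lam - k ^ 2 = k ^ 2 - 2 * k * p := by rw [hlam]; ring
  have hpk : p ≤ k / 80 := by linarith
  have hkp : 2 * k * p ≤ k ^ 2 / 40 := by nlinarith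
  have hnn : 0 ≤ k ^ 2 - 2 * k * p := by nlinarith
  rw [e]
  set κ := √(k ^ 2 - 2 * k * p) with hκ
  have hκ2 : κ ^ 2 = k ^ 2 - 2 * k * p := Real.sq_sqrt hnn
  have hκ0 : 0 ≤ κ := Real.sqrt_nonneg _
  have hkp0 : 0 ≤ k * p := mul_nonneg hk0.le hp0
  have hκk : κ ≤ k := by
    refine (pow_le_pow_iff_left₀ hκ0 hk0.le two_ne_zero).1 ?_
    rw [hκ2]; linarith
  have h2 : k - κ ≤ 2 * p := by
    have : (k - κ) * k ≤ 2 * p * k := by nlinarith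
    exact le_of_mul_le_mul_right this hk0
  refine ⟨hκ2, ?_, hκk, ?_⟩
  · rw [abs_sub_comm, abs_of_nonneg (by linarith)]
    linarith
  · nlinarith

/-- The base point of the initial covector. -/
noncomputable def yP : Sp 2 := √(2 * sA + 3) • ev 0

lemma norm_yP : ‖yP‖ ^ 2 = 2 * sA + 3 := by
  unfold yP ev
  rw [norm_smul, mul_pow, Real.norm_eq_abs, sq_abs, Real.sq_sqrt (by rw [sA_val]; norm_num)]
  simp

lemma norm_yP_bounds : 63 < ‖yP‖ ∧ ‖yP‖ < 64 := by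
  have h := norm_yP
  rw [sA_val] at h
  have h0 := norm_nonneg yP
  constructor <;> nlinarith

lemma yP_ne : yP ≠ 0 := by
  intro h
  have := norm_yP_bounds.1
  rw [h, norm_zero] at this
  linarith

lemma ball_yP {x : Sp 2} {r : ℝ} (hr : r ≤ 1 / 200) (hx : x ∈ Metric.closedBall yP r) :
    ‖x‖ ^ 2 / 2 ∈ Icc (sA + 1) (sA + 2) := by
  have h1 : ‖x - yP‖ ≤ 1 / 200 := by
    rw [Metric.mem_closedBall, dist_eq_norm] at hx
    exact hx.trans hr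
  have h2 := abs_norm_sub_norm_le x yP
  have h3 := abs_le.1 (h2.trans h1)
  have h4 := norm_yP
  obtain ⟨h5, h6⟩ := norm_yP_bounds
  have h7 := norm_nonneg x
  constructor <;> nlinarith

/-- Bumps around `yP`. -/
noncomputable def bumpR (m : ℕ) : ContDiffBump yP where
  rIn := 1 / (400 * (m + 1))
  rOut := 1 / (200 * (m + 1))
  rIn_pos := by positivity
  rIn_lt_rOut := by
    apply one_div_lt_one_div_of_lt (by positivity)
    have : (0 : ℝ) < m + 1 := by positivity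
    nlinarith

noncomputable def psi (m : ℕ) (x : Sp 2) : ℂ := (bumpR m x : ℝ)

lemma rOut_bump (m : ℕ) : (bumpR m).rOut = 1 / (200 * (m + 1)) := rfl

lemma isTest_psi (m : ℕ) : IsTest (psi m) := by
  refine ⟨Complex.ofRealCLM.contDiff.comp (bumpR m).contDiff, ?_⟩
  exact (bumpR m).hasCompactSupport.comp_left (g := fun r : ℝ => (r : ℂ)) (by simp)

lemma support_psi (m : ℕ) : Function.support (psi m) = Metric.ball yP (bumpR m).rOut := by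
  rw [← (bumpR m).support_eq]
  ext x
  simp [psi]

lemma tsupport_psi (m : ℕ) :
    tsupport (psi m) ⊆ {x | ‖x‖ ^ 2 / 2 ∈ Icc (sA + 1) (sA + 2)} := by
  intro x hx
  have h1 : x ∈ Metric.closedBall yP (bumpR m).rOut := by
    have : tsupport (psi m) ⊆ Metric.closedBall yP (bumpR m).rOut := by
      rw [tsupport, support_psi]
      exact Metric.closure_ball_subset_closedBall
    exact this hx
  refine ball_yP ?_ h1
  rw [rOut_bump]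
  apply one_div_le_one_div_of_le (by norm_num)
  have : (0 : ℝ) ≤ m := by positivity
  linarith

lemma zero_notMem_psi (m : ℕ) : (0 : Sp 2) ∉ tsupport (psi m) := by
  intro h
  have h1 := tsupport_psi m h
  rw [mem_ofPred_eq, norm_zero, sA_val] at h1
  have := h1.1
  norm_num at this

lemma integral_psi_pos (m : ℕ) : 0 < ‖∫ x, psi m x‖ := by
  have h1 : ∫ x, psi m x = ((∫ x, bumpR m x : ℝ) : ℂ) := by
    unfold psi; exact integral_ofReal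
  rw [h1, Complex.norm_real, Real.norm_eq_abs]
  exact abs_pos.2 (bumpR m).integral_pos.ne'

/-- The test state. -/
noncomputable def fst' (m k : ℕ) (κ : ℝ) : L2 2 := toL2 fun y => psi m y * osc k κ y

lemma norm_fst' (m k : ℕ) (κ : ℝ) : ‖fst' m k κ‖ ≤ ‖toL2 (psi m)‖ :=
  norm_mul_osc_le (isTest_psi m) (zero_notMem_psi m) k κ

/-- Pointwise in time decay of the pairings under the smoothness hypothesis. -/
lemma pointwise_decay {T : L2 2 →L[ℂ] L2 2} (hT : ∀ f, ‖T f‖ ≤ ‖f‖)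
    (hyp : ∀ x₀ : Sp 2, ‖x₀‖ ^ 2 / 2 ∈ Icc (sA - 2) (sA - 1) → ∀ σ : ℝ, (σ = 1 ∨ σ = -1) →
      MicroSmooth T x₀ (dirv σ x₀) yP (dirv 1 yP)) {κ : ℕ → ℝ}
    (hκ : ∃ K : ℕ, ∀ k : ℕ, K ≤ k → |κ k - k| ≤ √(k : ℝ)) :
    ∃ m n : ℕ, ∀ k : ℕ, n ≤ k → ∀ κ' : ℝ, |κ' - k| ≤ √(k : ℝ) → ∀ σ : ℝ, (σ = 1 ∨ σ = -1) →
      ‖⟪toL2 (bosc k chM1 (σ * κ')), T (fst' m k (κ k))⟫_ℂ‖ ≤ n * (k : ℝ) ^ (-10 : ℝ) ∧
      ‖⟪toL2 (bosc k chM2 (σ * κ')), T (fst' m k (κ k))⟫_ℂ‖ ≤ n * (k : ℝ) ^ (-10 : ℝ) := by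
  obtain ⟨K₀, hK₀⟩ := hκ
  obtain ⟨ρ₁, hρ₁, H₁⟩ := pairing_decay hT yP_ne sA_pos hyp (contDiff_cx contDiff_chM1)
    (by rw [support_cx]; exact support_chM1)
  obtain ⟨ρ₂, hρ₂, H₂⟩ := pairing_decay hT yP_ne sA_pos hyp (contDiff_cx contDiff_chM2)
    (by rw [support_cx]; exact support_chM2)
  obtain ⟨m, hm⟩ := exists_nat_gt (1 / min ρ₁ ρ₂)
  have hρ : 0 < min ρ₁ ρ₂ := lt_min hρ₁ hρ₂
  have hrm : (bumpR m).rOut ≤ min ρ₁ ρ₂ := by
    rw [rOut_bump, div_le_iff₀ (by positivity)]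
    have h1 : 1 < m * min ρ₁ ρ₂ := by
      rwa [div_lt_iff₀ hρ] at hm
    have h2 : (0 : ℝ) ≤ m := by positivity
    nlinarith
  obtain ⟨C₁, K₁, hC₁⟩ := H₁ (psi m) (isTest_psi m)
    (by rw [support_psi]; exact Metric.ball_subset_ball (hrm.trans (min_le_left _ _)))
  obtain ⟨C₂, K₂, hC₂⟩ := H₂ (psi m) (isTest_psi m)
    (by rw [support_psi]; exact Metric.ball_subset_ball (hrm.trans (min_le_right _ _)))
  obtain ⟨N, hN⟩ := exists_nat_gt (max C₁ C₂)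
  refine ⟨m, max (max K₀ N) (max K₁ K₂), fun k hk κ' hκ' σ hσ => ?_⟩
  have k0 : K₀ ≤ k := le_trans ((le_max_left _ _).trans (le_max_left _ _)) hk
  have k1 : K₁ ≤ k := le_trans ((le_max_left _ _).trans (le_max_right _ _)) hk
  have k2 : K₂ ≤ k := le_trans ((le_max_right _ _).trans (le_max_right _ _)) hk
  have hNn : (N : ℝ) ≤ (max (max K₀ N) (max K₁ K₂) : ℕ) := by
    exact_mod_cast (le_max_right K₀ N).trans (le_max_left _ _)
  have hpow : (0 : ℝ) ≤ (k : ℝ) ^ (-10 : ℝ) := Real.rpow_nonneg (by positivity) _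
  constructor
  · refine (hC₁ k k1 (κ k) κ' (hK₀ k k0) hκ' σ hσ).trans ?_
    gcongr
    exact ((le_max_left _ _).trans hN.le).trans hNn
  · refine (hC₂ k k2 (κ k) κ' (hK₀ k k0) hκ' σ hσ).trans ?_
    gcongr
    exact ((le_max_right _ _).trans hN.le).trans hNn

/-- Uniform decay on a time interval (Baire). -/
lemma uniform_decay {S : ℝ → (L2 2 →L[ℂ] L2 2)} (hS : IsSchrodingerGroup Amat S)
    (hyp : ∀ t : ℝ, 1 ≤ t → ∀ x₀ : Sp 2, ‖x₀‖ ^ 2 / 2 ∈ Icc (sA - 2) (sA - 1) →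
      ∀ σ : ℝ, (σ = 1 ∨ σ = -1) → MicroSmooth (S t) x₀ (dirv σ x₀) yP (dirv 1 yP))
    {κ : ℕ → ℝ} (hκ : ∃ K : ℕ, ∀ k : ℕ, K ≤ k → |κ k - k| ≤ √(k : ℝ)) :
    ∃ m n : ℕ, ∃ a b : ℝ, 1 ≤ a ∧ a < b ∧ b ≤ 2 ∧ ∀ t ∈ Icc a b, ∀ k : ℕ, n ≤ k →
      ∀ κ' : ℝ, |κ' - k| ≤ √(k : ℝ) → ∀ σ : ℝ, (σ = 1 ∨ σ = -1) →
      ‖⟪toL2 (bosc k chM1 (σ * κ')), S t (fst' m k (κ k))⟫_ℂ‖ ≤ n * (k : ℝ) ^ (-10 : ℝ) ∧
      ‖⟪toL2 (bosc k chM2 (σ * κ')), S t (fst' m k (κ k))⟫_ℂ‖ ≤ n * (k : ℝ) ^ (-10 : ℝ) := by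
  let T : ℕ × ℕ → Set ℝ := fun i => {t | ∀ k : ℕ, i.2 ≤ k →
      ∀ κ' : ℝ, |κ' - k| ≤ √(k : ℝ) → ∀ σ : ℝ, (σ = 1 ∨ σ = -1) →
      ‖⟪toL2 (bosc k chM1 (σ * κ')), S t (fst' i.1 k (κ k))⟫_ℂ‖ ≤ i.2 * (k : ℝ) ^ (-10 : ℝ) ∧
      ‖⟪toL2 (bosc k chM2 (σ * κ')), S t (fst' i.1 k (κ k))⟫_ℂ‖ ≤ i.2 * (k : ℝ) ^ (-10 : ℝ)}
  have hT : ∀ i, IsClosed (T i) := by
    intro i
    have hc : ∀ (g f : L2 2) (c : ℝ), IsClosed {t : ℝ | ‖⟪g, S t f⟫_ℂ‖ ≤ c} := by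
      intro g f c
      have h1 : Continuous fun t : ℝ => ‖⟪g, S t f⟫_ℂ‖ :=
        (continuous_const.inner (hS.cont f)).norm
      exact isClosed_le h1 continuous_const
    have : T i = ⋂ (k : ℕ) (_ : i.2 ≤ k) (κ' : ℝ) (_ : |κ' - k| ≤ √(k : ℝ)) (σ : ℝ)
        (_ : σ = 1 ∨ σ = -1),
        {t : ℝ | ‖⟪toL2 (bosc k chM1 (σ * κ')), S t (fst' i.1 k (κ k))⟫_ℂ‖ ≤
          i.2 * (k : ℝ) ^ (-10 : ℝ)} ∩
        {t : ℝ | ‖⟪toL2 (bosc k chM2 (σ * κ')), S t (fst' i.1 k (κ k))⟫_ℂ‖ ≤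
          i.2 * (k : ℝ) ^ (-10 : ℝ)} := by
      ext t
      simp only [mem_iInter]
      rfl
    rw [this]
    exact isClosed_iInter fun k => isClosed_iInter fun _ => isClosed_iInter fun κ' =>
      isClosed_iInter fun _ => isClosed_iInter fun σ => isClosed_iInter fun _ =>
        (hc _ _ _).inter (hc _ _ _)
  have hcov : ∀ t ∈ Icc (1 : ℝ) 2, ∃ i, t ∈ T i := by
    intro t ht
    obtain ⟨m, n, h⟩ := pointwise_decay (T := S t) (fun f => (hS.norm t f).le) (hyp t ht.1) hκ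
    exact ⟨(m, n), h⟩
  obtain ⟨i, a, b, ha, hab, hb, hsub⟩ := exists_interval hT hcov
  exact ⟨i.1, i.2, a, b, ha, hab, hb, fun t ht => hsub ht⟩

/-- Derivative of the propagated truncated mode. -/
lemma deriv_mode {S : ℝ → (L2 2 →L[ℂ] L2 2)} (hS : IsSchrodingerGroup Amat S) {k : ℕ}
    (hk : 2 ≤ k) {μ c₀ ς : ℝ} {u v : ℝ → ℝ} (h : SolP k μ u v) (t : ℝ) :
    HasDerivAt (fun s => S s (toL2 (sep k (cx (md k c₀ ς u)))))
      (-(Complex.I • S t ((μ : ℂ) • toL2 (sep k (cx (md k c₀ ς u))) +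
      (toL2 (sep k (cx (fl ς u v))) + toL2 (sep k (cx (en k c₀ ς u v))))))) t := by
  have hk0 : (0 : ℝ) < k := by
    have : (2 : ℝ) ≤ k := by exact_mod_cast hk
    linarith
  rw [← toL2_schrOp_mode hk h]
  exact hS.deriv _ (isTest_sep k (contDiff_cx (contDiff_md h)) (by norm_num : (0 : ℝ) < 3)
    (by rw [support_cx]; exact support_md hk0 u)) t

/-- The error term pairs weakly with the evolution of the test state. -/
lemma error_pairing {S : ℝ → (L2 2 →L[ℂ] L2 2)} (hS : IsSchrodingerGroup Amat S) {k : ℕ}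
    (hk : 2 ≤ k) {μ κ c₀ ς B D t : ℝ} {u v : ℝ → ℝ} (hκ : 1 ≤ κ)
    (hκ2 : κ ^ 2 = 2 * μ - (k : ℝ) ^ 2) (ht : Trunc c₀ ς) (h : SolP k μ u v)
    (hn : v (Lc - 1) ^ 2 + κ ^ 2 * u (Lc - 1) ^ 2 ≤ 9 * (k : ℝ) ^ 2) {f : L2 2}
    (h1 : ∀ σ : ℝ, (σ = 1 ∨ σ = -1) → ‖⟪toL2 (bosc k chM1 (σ * κ)), S t f⟫_ℂ‖ ≤ B)
    (h2 : ∀ σ : ℝ, (σ = 1 ∨ σ = -1) → ‖⟪toL2 (bosc k chM2 (σ * κ)), S t f⟫_ℂ‖ ≤ B)
    (hen : ‖toL2 (sep k (cx (en k c₀ ς u v)))‖ ≤ D) :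
    ‖⟪toL2 (sep k (cx (fl ς u v))) + toL2 (sep k (cx (en k c₀ ς u v))), S t f⟫_ℂ‖ ≤
      5 * k * B + D * ‖f‖ := by
  rw [inner_add_left]
  refine (norm_add_le _ _).trans (add_le_add
    (flux_pairing hκ hκ2 h ht.abs_sign hn h1 h2) ?_)
  refine (norm_inner_le_norm _ _).trans ?_
  rw [hS.norm]
  gcongr

/-- Each truncated mode is almost orthogonal to the evolution of the test state. -/
lemma piece_small {S : ℝ → (L2 2 →L[ℂ] L2 2)} (hS : IsSchrodingerGroup Amat S) {k : ℕ}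
    (hk : 2 ≤ k) {lam δ τ κ κ' c₀ ς B D ε a : ℝ} {u v z w : ℝ → ℝ} (hτ : 0 ≤ τ)
    (hδτ : δ * τ = Real.pi) (hκ : 1 ≤ κ) (hκ2 : κ ^ 2 = 2 * lam - (k : ℝ) ^ 2)
    (hκ' : 1 ≤ κ') (hκ2' : κ' ^ 2 = 2 * (lam + δ) - (k : ℝ) ^ 2) (ht : Trunc c₀ ς)
    (h : SolP k lam u v) (hz : SolP k (lam + δ) z w)
    (hn : v (Lc - 1) ^ 2 + κ ^ 2 * u (Lc - 1) ^ 2 ≤ 9 * (k : ℝ) ^ 2)
    (hn' : w (Lc - 1) ^ 2 + κ' ^ 2 * z (Lc - 1) ^ 2 ≤ 9 * (k : ℝ) ^ 2) {f : L2 2}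
    (h1 : ∀ t ∈ Icc a (a + τ), ∀ σ : ℝ, (σ = 1 ∨ σ = -1) →
      ‖⟪toL2 (bosc k chM1 (σ * κ)), S t f⟫_ℂ‖ ≤ B)
    (h2 : ∀ t ∈ Icc a (a + τ), ∀ σ : ℝ, (σ = 1 ∨ σ = -1) →
      ‖⟪toL2 (bosc k chM2 (σ * κ)), S t f⟫_ℂ‖ ≤ B)
    (h1' : ∀ t ∈ Icc a (a + τ), ∀ σ : ℝ, (σ = 1 ∨ σ = -1) →
      ‖⟪toL2 (bosc k chM1 (σ * κ')), S t f⟫_ℂ‖ ≤ B)
    (h2' : ∀ t ∈ Icc a (a + τ), ∀ σ : ℝ, (σ = 1 ∨ σ = -1) →
      ‖⟪toL2 (bosc k chM2 (σ * κ')), S t f⟫_ℂ‖ ≤ B)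
    (hen : ‖toL2 (sep k (cx (en k c₀ ς u v)))‖ ≤ D)
    (hen' : ‖toL2 (sep k (cx (en k c₀ ς z w)))‖ ≤ D)
    (hclose : ‖toL2 (sep k (cx (md k c₀ ς u))) - toL2 (sep k (cx (md k c₀ ς z)))‖ ≤ ε) :
    ‖⟪toL2 (sep k (cx (md k c₀ ς u))), S a f⟫_ℂ‖ ≤
      (5 * k * B + D * ‖f‖) * τ + ε * ‖f‖ :=
  hS.iso.two_point (lam := lam) (δ := δ) (deriv_mode hS hk h) rfl (deriv_mode hS hk hz) rfl
    hτ hδτ
    (fun t ht' => error_pairing hS hk hκ hκ2 ht h hn (h1 t ht') (h2 t ht') hen)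
    (fun t ht' => error_pairing hS hk hκ' hκ2' ht hz hn' (h1' t ht') (h2' t ht') hen')
    hclose

lemma trunc_all : Trunc 1 0 := ⟨Or.inr (Or.inr ⟨rfl, rfl⟩)⟩
lemma trunc_right : Trunc 0 1 := ⟨Or.inl ⟨rfl, rfl⟩⟩
lemma trunc_left : Trunc 1 (-1) := ⟨Or.inr (Or.inl ⟨rfl, rfl⟩)⟩

/-- Splitting of the mode. -/
lemma split_mode {k : ℕ} (hk : 2 ≤ k) {μ : ℝ} {u v : ℝ → ℝ} (h : SolP k μ u v) :
    toL2 (sep k (cx (md k 1 0 u))) =
      toL2 (sep k (cx (md k 0 1 u))) + toL2 (sep k (cx (md k 1 (-1) u))) := by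
  have hk0 : (0 : ℝ) < k := by
    have : (2 : ℝ) ≤ k := by exact_mod_cast hk
    linarith
  have mm : ∀ c₀ ς : ℝ, MemLp (sep k (cx (md k c₀ ς u))) 2 (volume : Measure (Sp 2)) :=
    fun c₀ ς => memLp_cx (contDiff_md h).continuous (by norm_num : (0 : ℝ) < 3)
      (support_md hk0 u)
  rw [← toL2_add_mem (mm 0 1) (mm 1 (-1))]
  congr 1
  funext x
  simp only [sep, cx, md, tr, Pi.add_apply]
  push_cast; ring

/-- End conditions for odd solutions. -/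
lemma endCond_odd {k c₀ ς : ℝ} {u v : ℝ → ℝ} (hodd : ∀ x, u (2 * Lc - x) = -u x ∧
    v (2 * Lc - x) = v x) (hs : ∀ x ∈ Icc 0 (2 / k), |u x| ≤ 1 / k ^ 3 ∧ |v x| ≤ 1 / k ^ 2) :
    EndCond k c₀ ς u v := by
  refine ⟨fun x hx => Or.inr (hs x hx), fun x hx => Or.inr ?_⟩
  rw [(hodd x).1, (hodd x).2, abs_neg]
  exact hs x hx

lemma endCond_left {k : ℝ} (hk : 2 ≤ k) {z w : ℝ → ℝ}
    (hs : ∀ x ∈ Icc 0 (2 / k), |z x| ≤ 1 / k ^ 3 ∧ |w x| ≤ 1 / k ^ 2) :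
    EndCond k 1 (-1) z w := by
  refine ⟨fun x hx => Or.inr (hs x hx), fun x hx => Or.inl ?_⟩
  have h2k : 2 / k ≤ 1 := by rw [div_le_one (by linarith)]; exact hk
  unfold tr
  rw [chM_one (by rw [sA_val, sB_val]; linarith [hx.2])]
  ring

lemma endCond_right {k : ℝ} (hk : 2 ≤ k) {z w : ℝ → ℝ}
    (hs : ∀ x ∈ Icc 0 (2 / k), |z x| ≤ 1 / k ^ 3 ∧ |w x| ≤ 1 / k ^ 2) :
    EndCond k 0 1 (fun x => -z (2 * Lc - x)) (fun x => w (2 * Lc - x)) := by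
  refine ⟨fun x hx => Or.inl ?_, fun x hx => Or.inr ?_⟩
  · have h2k : 2 / k ≤ 1 := by rw [div_le_one (by linarith)]; exact hk
    unfold tr
    rw [chM_zero (by rw [sA_val]; linarith [hx.2])]
    ring
  · simp only [sub_sub_cancel, abs_neg]
    exact hs x hx

lemma tr_right_zero {k s : ℝ} (hk : 0 < k) (hs : s ∉ Icc (sA - 2) sB) :
    tr 0 1 s * chE k s = 0 := by
  rw [mem_Icc, not_and_or, not_le, not_le] at hs
  rcases hs with h | h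
  · unfold tr; rw [chM_zero h.le]; ring
  · have : chE k s = 0 := by
      by_contra hne
      have := chE_support hk hne
      linarith [this.2]
    rw [this, mul_zero]

lemma tr_left_zero {k s : ℝ} (hk : 0 < k) (hs : s ∉ Icc 3 (sA - 1)) :
    tr 1 (-1) s * chE k s = 0 := by
  rw [mem_Icc, not_and_or, not_le, not_le] at hs
  rcases hs with h | h
  · have : chE k s = 0 := by
      by_contra hne
      have := chE_support hk hne
      linarith [this.1]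
    rw [this, mul_zero]
  · unfold tr; rw [chM_one h.le]; ring

/-- Closeness of the right pieces. -/
lemma close_right {k : ℕ} (hk : 2 ≤ k) {u z : ℝ → ℝ} (hu : Continuous u) (hz : Continuous z)
    (hodd : ∀ x, u (2 * Lc - x) = -u x) {ε : ℝ}
    (hc : ∫ x in (0 : ℝ)..(Lc + 2), (z x - u x) ^ 2 ≤ ε) :
    ‖toL2 (sep k (cx (md k 0 1 u))) -
      toL2 (sep k (cx (md k 0 1 fun x => -z (2 * Lc - x))))‖ ≤ √(2 * Real.pi * ε) := by
  have hk0 : (0 : ℝ) < k := by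
    have : (2 : ℝ) ≤ k := by exact_mod_cast hk
    linarith
  have hz' : Continuous fun x => -z (2 * Lc - x) := by fun_prop
  have h1 := close_norm hk trunc_right hu hz' sA_pos (by rw [sA_val, sB_val]; norm_num)
    (fun s hs => tr_right_zero hk0 hs) (b := sB)
  apply Real.le_sqrt_of_sq_le
  refine h1.trans ?_
  have e : ∫ x in (sA - 2 - 3)..(sB - 3), (u x - -z (2 * Lc - x)) ^ 2 =
      ∫ x in (0 : ℝ)..(Lc + 2), (z x - u x) ^ 2 := by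
    have e1 : ∀ x, (u x - -z (2 * Lc - x)) ^ 2 =
        (fun y => (z y - u y) ^ 2) (2 * Lc - x) := by
      intro x
      simp only
      rw [hodd x]; ring
    rw [intervalIntegral.integral_congr (g := fun x => (fun y => (z y - u y) ^ 2) (2 * Lc - x))
      (fun x _ => e1 x), intervalIntegral.integral_comp_sub_left (fun y => (z y - u y) ^ 2)
        (2 * Lc)]
    congr 1
    · unfold sB; ring
    · unfold sA; ring
  rw [e]
  have hpi := Real.pi_pos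
  gcongr

/-- Closeness of the left pieces. -/
lemma close_left {k : ℕ} (hk : 2 ≤ k) {u z : ℝ → ℝ} (hu : Continuous u) (hz : Continuous z)
    {ε : ℝ} (hc : ∫ x in (0 : ℝ)..(Lc + 2), (z x - u x) ^ 2 ≤ ε) :
    ‖toL2 (sep k (cx (md k 1 (-1) u))) - toL2 (sep k (cx (md k 1 (-1) z)))‖ ≤
      √(2 * Real.pi * ε) := by
  have hk0 : (0 : ℝ) < k := by
    have : (2 : ℝ) ≤ k := by exact_mod_cast hk
    linarith
  have h1 := close_norm hk trunc_left hu hz (by norm_num : (0 : ℝ) < 3)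
    (by rw [sA_val]; norm_num) (fun s hs => tr_left_zero hk0 hs) (b := sA - 1)
  apply Real.le_sqrt_of_sq_le
  refine h1.trans ?_
  have hi : ∀ a b : ℝ, IntervalIntegrable (fun x => (z x - u x) ^ 2) volume a b := fun a b =>
    Continuous.intervalIntegrable (by fun_prop) _ _
  have e : ∫ x in ((3 : ℝ) - 3)..(sA - 1 - 3), (u x - z x) ^ 2 =
      ∫ x in (0 : ℝ)..(Lc - 1), (z x - u x) ^ 2 := by
    have e1 : (3 : ℝ) - 3 = 0 := by norm_num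
    have e2 : sA - 1 - 3 = Lc - 1 := by unfold sA; ring
    rw [e1, e2]
    exact intervalIntegral.integral_congr fun x _ => by ring
  rw [e]
  have e3 : ∫ x in (0 : ℝ)..(Lc - 1), (z x - u x) ^ 2 ≤
      ∫ x in (0 : ℝ)..(Lc + 2), (z x - u x) ^ 2 := by
    rw [← intervalIntegral.integral_add_adjacent_intervals (hi 0 (Lc - 1))
      (hi (Lc - 1) (Lc + 2))]
    have : 0 ≤ ∫ x in (Lc - 1)..(Lc + 2), (z x - u x) ^ 2 :=
      intervalIntegral.integral_nonneg (by linarith) fun x _ => sq_nonneg _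
    linarith
  have hpi := Real.pi_pos
  have := e3.trans hc
  gcongr

/-- Flux amplitude of a normalised solution. -/
lemma amp_normal {k κ a b : ℝ} (hk : 0 < k) (hκ : 0 ≤ κ) (hκk : κ ≤ k)
    (hn : a ^ 2 + (b / k) ^ 2 = 1) : b ^ 2 + κ ^ 2 * a ^ 2 ≤ 9 * k ^ 2 := by
  have h2 : k ^ 2 * a ^ 2 + b ^ 2 = k ^ 2 := by
    have e1 : k ^ 2 * (a ^ 2 + (b / k) ^ 2) = k ^ 2 := by rw [hn, mul_one]
    have e2 : k ^ 2 * (a ^ 2 + (b / k) ^ 2) = k ^ 2 * a ^ 2 + b ^ 2 := by field_simp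
    rw [← e2, e1]
  have h3 : κ ^ 2 ≤ k ^ 2 := by gcongr
  have h4 := mul_le_mul_of_nonneg_right h3 (sq_nonneg a)
  nlinarith [sq_nonneg k]

lemma amp_mirror {k κ a b : ℝ} (hk : 0 < k) (hκ : 0 ≤ κ) (hκk : κ ≤ k) (ha : |a| ≤ 2)
    (hb : |b| ≤ 2 * k) : b ^ 2 + κ ^ 2 * (-a) ^ 2 ≤ 9 * k ^ 2 := by
  have h1 : a ^ 2 ≤ 4 := by
    rw [← sq_abs]; nlinarith [abs_nonneg a]
  have h2 : b ^ 2 ≤ 4 * k ^ 2 := by
    rw [← sq_abs]; nlinarith [abs_nonneg b]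
  have h3 : κ ^ 2 ≤ k ^ 2 := by gcongr
  have h4 : κ ^ 2 * a ^ 2 ≤ k ^ 2 * 4 := by gcongr
  rw [neg_sq]
  nlinarith [sq_nonneg k]

/-- Eventual smallness of the errors. -/
lemma eventually_small (n : ℕ) (D F τ c : ℝ) (hc : 0 < c) : ∀ᶠ k : ℕ in atTop,
    2 * ((5 * (k : ℝ) * (n * (k : ℝ) ^ (-10 : ℝ)) + D / k * F) * τ) + 2 * (D / k * F) < c := by
  have h1 := tendsto_log_mul 0 (a := 9) (by norm_num)
  have h2 := tendsto_log_mul 0 (a := 1) (by norm_num)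
  have h3 := ((h1.const_mul (10 * n * τ)).add (h2.const_mul (2 * D * F * τ))).add
    (h2.const_mul (2 * D * F))
  simp only [mul_zero, add_zero, pow_zero, one_mul] at h3
  filter_upwards [h3.eventually_lt_const hc, eventually_gt_atTop 0] with k hk hk0
  refine lt_of_eq_of_lt ?_ hk
  have hk0' : (0 : ℝ) < k := by exact_mod_cast hk0
  have e1 : (k : ℝ) ^ (-9 : ℝ) = k * (k : ℝ) ^ (-10 : ℝ) := by
    conv_rhs => rw [← Real.rpow_one_add' (by positivity) (by norm_num)]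
    norm_num
  have e2 : (k : ℝ) ^ (-1 : ℝ) = 1 / k := by rw [Real.rpow_neg_one, one_div]
  rw [e1, e2]
  field_simp
  ring

/-- The main argument: some covector over the inner well is related to the covector over the
outer well at some time. -/
theorem exists_not_micro {S : ℝ → (L2 2 →L[ℂ] L2 2)} (hS : IsSchrodingerGroup Amat S) :
    ∃ t : ℝ, 1 ≤ t ∧ ∃ x₀ : Sp 2, ‖x₀‖ ^ 2 / 2 ∈ Icc (sA - 2) (sA - 1) ∧
      ∃ σ : ℝ, (σ = 1 ∨ σ = -1) ∧ ¬ MicroSmooth (S t) x₀ (dirv σ x₀) yP (dirv 1 yP) := by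
  by_contra hcon
  have hyp : ∀ t : ℝ, 1 ≤ t → ∀ x₀ : Sp 2, ‖x₀‖ ^ 2 / 2 ∈ Icc (sA - 2) (sA - 1) →
      ∀ σ : ℝ, (σ = 1 ∨ σ = -1) → MicroSmooth (S t) x₀ (dirv σ x₀) yP (dirv 1 yP) := by
    intro t ht x₀ hx₀ σ hσ
    by_contra h
    exact hcon ⟨t, ht, x₀, hx₀, σ, hσ, h⟩
  -- the modes
  obtain ⟨K₀, hK₀⟩ := exists_mode
  obtain ⟨Kκ, hKκ⟩ := kappa_props
  have hmode : ∀ k : ℕ, ∃ lam p : ℝ, ∃ u v : ℝ → ℝ, K₀ ≤ (k : ℝ) →
      lam = (k : ℝ) ^ 2 - k * p ∧ Real.log k / 160 ≤ p ∧ p ≤ Real.log k / 80 ∧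
      SolP k lam u v ∧ u 0 = 0 ∧ u Lc = 0 ∧ u (Lc - 1) ^ 2 + (v (Lc - 1) / k) ^ 2 = 1 ∧
      ∀ x ∈ Icc 0 (2 / (k : ℝ)), |u x| ≤ 1 / (k : ℝ) ^ 3 ∧ |v x| ≤ 1 / (k : ℝ) ^ 2 := by
    intro k
    by_cases hk : K₀ ≤ (k : ℝ)
    · obtain ⟨lam, p, u, v, h⟩ := hK₀ k hk
      exact ⟨lam, p, u, v, fun _ => h⟩
    · exact ⟨0, 0, 0, 0, fun h => absurd h hk⟩
  choose lam p u v hm using hmode
  set κ : ℕ → ℝ := fun k => √(2 * lam k - (k : ℝ) ^ 2) with hκdef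
  -- frequencies are close to `k`
  obtain ⟨M₀, hM₀⟩ := exists_nat_gt (max (max K₀ Kκ) 1)
  have hbase : ∀ k : ℕ, M₀ ≤ k → K₀ ≤ (k : ℝ) ∧ Kκ ≤ (k : ℝ) ∧ 1 ≤ (k : ℝ) := by
    intro k hk
    have h1 : (M₀ : ℝ) ≤ k := by exact_mod_cast hk
    have h2 := hM₀.le.trans h1
    exact ⟨((le_max_left _ _).trans (le_max_left _ _)).trans h2,
      ((le_max_right _ _).trans (le_max_left _ _)).trans h2, (le_max_right _ _).trans h2⟩
  have hp0 : ∀ k : ℕ, M₀ ≤ k → 0 ≤ p k := by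
    intro k hk
    obtain ⟨h1, _, h3⟩ := hbase k hk
    have := (hm k h1).2.1
    have hlog := Real.log_nonneg h3
    linarith
  have hκp : ∀ k : ℕ, M₀ ≤ k → κ k ^ 2 = 2 * lam k - (k : ℝ) ^ 2 ∧ |κ k - k| ≤ √(k : ℝ) ∧
      κ k ≤ k ∧ 1 ≤ κ k := by
    intro k hk
    obtain ⟨h1, h2, _⟩ := hbase k hk
    obtain ⟨a1, a2, a3, -⟩ := hm k h1
    exact hKκ k h2 (p k) (hp0 k hk) a3 (lam k) a1
  obtain ⟨m, n, a, b, ha1, hab, hb2, hdec⟩ := uniform_decay hS hyp (κ := κ)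
    ⟨M₀, fun k hk => (hκp k hk).2.1⟩
  -- parameters
  set τ : ℝ := b - a with hτdef
  have hτ : 0 < τ := by rw [hτdef]; linarith
  set δ : ℝ := Real.pi / τ with hδdef
  have hδ : 0 < δ := div_pos Real.pi_pos hτ
  have hδτ : δ * τ = Real.pi := by rw [hδdef]; field_simp
  set Fn : ℝ := ‖toL2 (psi m)‖ with hFn
  have hFn0 : 0 ≤ Fn := norm_nonneg _
  set I0 : ℝ := ‖∫ x, psi m x‖ with hI0def
  have hI0 : 0 < I0 := integral_psi_pos m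
  set ε₁ : ℝ := I0 / (32 * (Fn + 1)) with hε₁
  have hε₁0 : 0 < ε₁ := by positivity
  set ε : ℝ := ε₁ ^ 2 / (2 * Real.pi) with hεdef
  have hε : 0 < ε := by
    have := Real.pi_pos
    positivity
  have hsqrt : √(2 * Real.pi * ε) = ε₁ := by
    have : 2 * Real.pi * ε = ε₁ ^ 2 := by
      rw [hεdef]; field_simp
    rw [this, Real.sqrt_sq hε₁0.le]
  have hε₁F : ε₁ * Fn ≤ I0 / 32 := by
    rw [hε₁, div_mul_eq_mul_div, div_le_div_iff₀ (by positivity) (by norm_num)]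
    nlinarith
  obtain ⟨K₁, hK₁⟩ := mode_close hδ hε
  obtain ⟨Kov, hKov⟩ := overlap (isTest_psi m) (tsupport_psi m) (half_pos hI0)
  obtain ⟨D, hD0, hD⟩ := norm_en_le
  -- choice of `k`
  have hlogδ : ∀ᶠ k : ℕ in atTop, δ ≤ Real.log (k : ℝ) / 160 := by
    have := (Real.tendsto_log_atTop.comp tendsto_natCast_atTop_atTop).eventually_ge_atTop
      (160 * δ)
    filter_upwards [this] with k hk
    simp only [Function.comp] at hk
    linarith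
  have hall := (eventually_small n D Fn τ (I0 / 16) (by positivity)).and
    (hlogδ.and ((eventually_ge_atTop M₀).and ((eventually_ge_atTop n).and
    ((eventually_ge_atTop Kov).and ((eventually_ge_atTop 2).and
    (tendsto_natCast_atTop_atTop.eventually_ge_atTop K₁))))))
  obtain ⟨k, hkall⟩ := hall.exists
  obtain ⟨hsmall, hkδ, hkM, hkn, hkov, hk2, hkK₁⟩ := hkall
  obtain ⟨b1, b2, b3⟩ := hbase k hkM
  obtain ⟨q1, q2, q3, q4⟩ := hκp k hkM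
  obtain ⟨c1, c2, c3, hsol, hu0, huL, hun, hus⟩ := hm k b1
  have hk0 : (0 : ℝ) < k := by linarith
  have hk2' : (2 : ℝ) ≤ k := by exact_mod_cast hk2
  have hodd := hsol.odd huL
  obtain ⟨z, w, hzsol, hzs, hzn, hzb, hzc⟩ :=
    hK₁ k hkK₁ (lam k) (p k) (u k) (v k) c1 c2 c3 hsol hu0 huL hun
  -- the second frequency
  set κ' : ℝ := √(2 * (lam k + δ) - (k : ℝ) ^ 2) with hκ'def
  have hlam2 : lam k + δ = (k : ℝ) ^ 2 - k * (p k - δ / k) := by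
    rw [c1]; field_simp; ring
  have hδk : δ / k ≤ δ := div_le_self hδ.le b3
  have hδk0 : 0 ≤ δ / (k : ℝ) := by positivity
  obtain ⟨r1, r2, r3, r4⟩ := hKκ k b2 (p k - δ / k) (by linarith) (by linarith) _ hlam2
  rw [← hκ'def] at r1 r2 r3 r4
  -- the test state
  set f : L2 2 := fst' m k (κ k) with hf
  have hfn : ‖f‖ ≤ Fn := norm_fst' m k (κ k)
  have hab' : a + τ = b := by rw [hτdef]; ring
  set B : ℝ := n * (k : ℝ) ^ (-10 : ℝ) with hB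
  have hB0 : 0 ≤ B := by positivity
  have dec : ∀ κ'' : ℝ, |κ'' - k| ≤ √(k : ℝ) → ∀ t ∈ Icc a (a + τ), ∀ σ : ℝ,
      (σ = 1 ∨ σ = -1) → ‖⟪toL2 (bosc k chM1 (σ * κ'')), S t f⟫_ℂ‖ ≤ B ∧
        ‖⟪toL2 (bosc k chM2 (σ * κ'')), S t f⟫_ℂ‖ ≤ B := by
    intro κ'' hκ'' t ht σ hσ
    rw [hab'] at ht
    exact hdec t ht k hkn κ'' hκ'' σ hσ
  have hun' := amp_normal hk0 (by linarith : 0 ≤ κ k) q3 hun
  have hzn' := amp_normal hk0 (by linarith : 0 ≤ κ') r3 hzn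
  have hcu := hsol.contU
  have hcv := hsol.contV
  have hcz := hzsol.contU
  have hcw := hzsol.contV
  -- left piece
  have left := piece_small hS hk2 (a := a) (f := f) (B := B) (D := D / k) hτ.le hδτ q4 q1 r4 r1
    trunc_left hsol hzsol hun' hzn'
    (fun t ht σ hσ => (dec _ q2 t ht σ hσ).1) (fun t ht σ hσ => (dec _ q2 t ht σ hσ).2)
    (fun t ht σ hσ => (dec _ r2 t ht σ hσ).1) (fun t ht σ hσ => (dec _ r2 t ht σ hσ).2)
    (hD k hk2 _ _ trunc_left _ _ hcu hcv (endCond_odd hodd hus))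
    (hD k hk2 _ _ trunc_left _ _ hcz hcw (endCond_left hk2' hzs))
    (close_left hk2 hcu hcz hzc)
  -- right piece
  have hmir : (fun x => w (2 * Lc - x)) (Lc - 1) ^ 2 +
      κ' ^ 2 * (fun x => -z (2 * Lc - x)) (Lc - 1) ^ 2 ≤ 9 * (k : ℝ) ^ 2 := by
    have e : 2 * Lc - (Lc - 1) = Lc + 1 := by ring
    simp only [e]
    obtain ⟨h1, h2⟩ := hzb (Lc + 1) ⟨le_refl _, by linarith⟩
    exact amp_mirror hk0 (by linarith) r3 h1 h2
  have right := piece_small hS hk2 (a := a) (f := f) (B := B) (D := D / k) hτ.le hδτ q4 q1 r4 r1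
    trunc_right hsol hzsol.reflect hun' hmir
    (fun t ht σ hσ => (dec _ q2 t ht σ hσ).1) (fun t ht σ hσ => (dec _ q2 t ht σ hσ).2)
    (fun t ht σ hσ => (dec _ r2 t ht σ hσ).1) (fun t ht σ hσ => (dec _ r2 t ht σ hσ).2)
    (hD k hk2 _ _ trunc_right _ _ hcu hcv (endCond_odd hodd hus))
    (hD k hk2 _ _ trunc_right _ _ (by fun_prop) (by fun_prop) (endCond_right hk2' hzs))
    (close_right hk2 hcu hcz (fun x => (hodd x).1) hzc)
  rw [hsqrt] at left right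
  -- conservation for the whole mode
  have hfl0 : fl 0 (u k) (v k) = 0 := by
    funext s; simp [fl]
  have hsep0 : toL2 (sep k (cx (fl 0 (u k) (v k)))) = 0 := by
    rw [hfl0]
    have : sep k (cx 0) = (0 : ℂ) • sep k (cx 0) := by
      funext x; simp [sep, cx]
    rw [this, toL2_smul_mem (memLp_cx (a := 1) (b := 1) continuous_zero one_pos (by simp)),
      zero_smul]
  have hcons := hS.iso.conserve (lam := lam k) (f := f) (t := a)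
    (deriv_mode hS hk2 (c₀ := 1) (ς := 0) hsol) rfl (by linarith)
  rw [hsep0, zero_add] at hcons
  have hen := hD k hk2 _ _ trunc_all _ _ hcu hcv (endCond_odd hodd hus)
  have hov := hKov k hkov (lam k) (κ k) (u k) (v k) q1 q2 q3 hsol huL hun
  have hsplit : ‖⟪toL2 (sep k (cx (md k 1 0 (u k)))), S a f⟫_ℂ‖ ≤
      ((5 * k * B + D / k * ‖f‖) * τ + ε₁ * ‖f‖) + ((5 * k * B + D / k * ‖f‖) * τ + ε₁ * ‖f‖) := by
    rw [split_mode hk2 hsol, inner_add_left]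
    exact (norm_add_le _ _).trans (add_le_add right left)
  have hDk : 0 ≤ D / (k : ℝ) := by positivity
  have e1 : ‖toL2 (sep k (cx (en (↑k) 1 0 (u k) (v k))))‖ * ‖f‖ * a ≤ D / k * Fn * 2 := by
    have ha0 : 0 ≤ a := by linarith
    have ha2 : a ≤ 2 := by linarith
    gcongr
  have e2 : (5 * k * B + D / k * ‖f‖) * τ + ε₁ * ‖f‖ ≤
      (5 * k * B + D / k * Fn) * τ + ε₁ * Fn := by
    gcongr
  have e3 : (I0 - I0 / 2) / 2 ≤ ‖⟪toL2 (sep k (cx (md k 1 0 (u k)))), f⟫_ℂ‖ := hov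
  linarith

end Pool.Agent.Work.MP_5698f2_an
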